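import Mathlib

set_option autoImplicit false

namespace Pool.Agent.Results.MP_0f984e_lc.IndependentBuckets

/-! ### Orthogonal Vectors -/

/-- Positions of the `2n` input vectors: `(false, i)` is the `i`-th vector of `A`, and
`(true, j)` is the `j`-th vector of `B`. -/
abbrev Pos (n : ℕ) : Type := Bool × Fin n

/-- Vectors in `{0,1}^d`. -/
abbrev Vec (d : ℕ) : Type := Fin d → Bool

/-- An input: `n` vectors of `A` and `n` vectors of `B`, all in `{0,1}^d`. -/
abbrev Input (n d : ℕ) : Type := Pos n → Vec d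

/-- Valid inputs: each of the two sets is listed in strictly increasing lexicographic order (so
each consists of exactly `n` distinct vectors, written in the canonical order). -/
def IsValid {n d : ℕ} (x : Input n d) : Prop :=
  StrictMono (fun i : Fin n => toLex (x (false, i))) ∧
  StrictMono (fun j : Fin n => toLex (x (true, j)))

/-- The `i`-th vector of `A` and the `j`-th vector of `B` have inner product `0` over the
integers. -/
def Orthogonal {n d : ℕ} (x : Input n d) (i j : Fin n) : Prop :=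
  ∑ k : Fin d, (x (false, i) k).toNat * (x (true, j) k).toNat = 0

/-! ### Independent bucketing -/

/-- A bucketing scheme: every list `A` is distributed in some way over the buckets, every list
`B` is distributed in some way over the buckets, vectors may be put in several buckets or in
none. -/
structure Scheme (n d : ℕ) where
  /-- number of buckets -/
  buckets : ℕ
  /-- the (indices of the) vectors of `A` in the bucket -/
  left : Fin buckets → (Fin n → Vec d) → Finset (Fin n)
  /-- the (indices of the) vectors of `B` in the bucket -/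
  right : Fin buckets → (Fin n → Vec d) → Finset (Fin n)

/-- The cost: the number of placements of vectors in buckets plus the number of pairs which meet
in a bucket (counted with multiplicity). -/
def Scheme.cost {n d : ℕ} (S : Scheme n d) (x : Input n d) : ℕ :=
  ∑ t, ((S.left t fun i => x (false, i)).card + (S.right t fun j => x (true, j)).card +
    (S.left t fun i => x (false, i)).card * (S.right t fun j => x (true, j)).card)

/-- Some orthogonal pair meets in a bucket. -/
def Scheme.Finds {n d : ℕ} (S : Scheme n d) (x : Input n d) : Prop :=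
  ∃ t, ∃ i ∈ S.left t fun i => x (false, i), ∃ j ∈ S.right t fun j => x (true, j),
    Orthogonal x i j

/-! ### A hypercontractive inequality -/

theorem pointwise {η : ℝ} (h0 : 0 < η) (h1 : η ≤ 1) {k : ℝ} (hk : 1 < k) (hk1 : 3 ≤ k ^ η)
    (hk2 : 2 / η ≤ k - 1) {w : ℝ} (hw0 : 0 ≤ w) (hwk : w ≤ k) :
    (w - 1) ^ 2 / (k - 1) ≤ w ^ (1 + η) - 1 - (1 + η) * (w - 1) := by
  have hk0 : 0 < k - 1 := by linarith
  let g : ℝ → ℝ := fun w => w ^ (1 + η) - 1 - (1 + η) * (w - 1) - (w - 1) ^ 2 / (k - 1)
  have hder : ∀ w, HasDerivAt g ((1 + η) * w ^ η - (1 + η) - 2 * (w - 1) / (k - 1)) w := by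
    intro w
    have e1 : HasDerivAt (fun w : ℝ => w ^ (1 + η)) ((1 + η) * w ^ η) w := by
      have := Real.hasDerivAt_rpow_const (x := w) (p := 1 + η) (Or.inr (by linarith))
      simpa using this
    have e2 : HasDerivAt (fun w : ℝ => (1 + η) * (w - 1)) (1 + η) w := by
      simpa using ((hasDerivAt_id w).sub_const 1).const_mul (1 + η)
    have e3 : HasDerivAt (fun w : ℝ => (w - 1) ^ 2 / (k - 1)) (2 * (w - 1) / (k - 1)) w := by
      have := (((hasDerivAt_id w).sub_const 1).pow 2).div_const (k - 1)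
      simpa using this
    exact ((e1.sub_const 1).sub e2).sub e3
  have hg1 : g 1 = 0 := by simp [g]
  have hgw : 0 ≤ g w := by
    rcases le_total w 1 with hw | hw
    · have hanti : AntitoneOn g (Set.Icc 0 1) := by
        apply antitoneOn_of_deriv_nonpos (convex_Icc 0 1)
        · exact fun x _ => (hder x).continuousAt.continuousWithinAt
        · exact fun x _ => (hder x).differentiableAt.differentiableWithinAt
        · intro x hx
          rw [interior_Icc] at hx
          rw [(hder x).deriv]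
          have h2 : x ^ η ≤ 1 + η * (x - 1) := by
            have := rpow_one_add_le_one_add_mul_self (s := x - 1) (p := η)
              (by linarith [hx.1]) h0.le h1
            simpa using this
          have h3 : 2 * (1 - x) / (k - 1) ≤ (1 + η) * (η * (1 - x)) := by
            rw [div_le_iff₀ hk0]
            have h4 : 2 ≤ (k - 1) * η := by rwa [div_le_iff₀ h0] at hk2
            have h5 : 0 ≤ 1 - x := by linarith [hx.2]
            nlinarith [mul_nonneg h5 (show 0 ≤ (k - 1) * η - 2 by linarith),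
              mul_nonneg (mul_nonneg h5 h0.le) (mul_nonneg h0.le hk0.le)]
          have h6 : 2 * (x - 1) / (k - 1) = -(2 * (1 - x) / (k - 1)) := by ring
          rw [h6]
          nlinarith
      have := hanti (show w ∈ Set.Icc (0 : ℝ) 1 from ⟨hw0, hw⟩)
        (show (1 : ℝ) ∈ Set.Icc (0 : ℝ) 1 by simp) hw
      rwa [hg1] at this
    · have hmono : MonotoneOn g (Set.Icc 1 k) := by
        apply monotoneOn_of_deriv_nonneg (convex_Icc 1 k)
        · exact fun x _ => (hder x).continuousAt.continuousWithinAt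
        · exact fun x _ => (hder x).differentiableAt.differentiableWithinAt
        · intro x hx
          rw [interior_Icc] at hx
          rw [(hder x).deriv]
          have h2 := (Real.concaveOn_rpow h0.le h1).2 (show (1 : ℝ) ∈ Set.Ici 0 by simp)
            (show k ∈ Set.Ici (0 : ℝ) from Set.mem_Ici.2 (by linarith))
            (show 0 ≤ 1 - (x - 1) / (k - 1) by
              rw [sub_nonneg, div_le_one hk0]; linarith [hx.2])
            (show 0 ≤ (x - 1) / (k - 1) from div_nonneg (by linarith [hx.1]) hk0.le)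
            (by ring)
          simp only [smul_eq_mul, Real.one_rpow, mul_one] at h2
          have h3 : 1 - (x - 1) / (k - 1) + (x - 1) / (k - 1) * k = x := by
            field_simp
            ring
          rw [h3] at h2
          have h4 : 0 ≤ (x - 1) / (k - 1) := div_nonneg (by linarith [hx.1]) hk0.le
          have h5 : 2 * (x - 1) / (k - 1) = 2 * ((x - 1) / (k - 1)) := by ring
          rw [h5]
          have h6 : (x - 1) / (k - 1) * 2 ≤ x ^ η - 1 := by nlinarith
          nlinarith
      have := hmono (show (1 : ℝ) ∈ Set.Icc (1 : ℝ) k from ⟨le_rfl, hk.le⟩)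
        (show w ∈ Set.Icc (1 : ℝ) k from ⟨hw, hwk⟩) hw
      rwa [hg1] at this
  simp only [g] at hgw
  linarith

/-- The pointwise inequality which is used, for the alphabet size `k` and the exponent `q`. -/
def Good (k : ℕ) (q : ℝ) : Prop :=
  ∀ w : ℝ, 0 ≤ w → w ≤ k → (w - 1) ^ 2 / (k - 1) ≤ w ^ q - 1 - q * (w - 1)

theorem exists_good {η : ℝ} (h0 : 0 < η) (h1 : η ≤ 1) : ∃ k : ℕ, 2 ≤ k ∧ Good k (1 + η) := by
  have h2 : Filter.Tendsto (fun k : ℕ => (k : ℝ) ^ η) Filter.atTop Filter.atTop :=
    (tendsto_rpow_atTop h0).comp tendsto_natCast_atTop_atTop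
  have h3 : Filter.Tendsto (fun k : ℕ => (k : ℝ)) Filter.atTop Filter.atTop :=
    tendsto_natCast_atTop_atTop
  obtain ⟨k, hk1, hk2, hk3⟩ := ((h2.eventually_ge_atTop 3).and
    ((h3.eventually_ge_atTop (2 / η + 1)).and (Filter.eventually_ge_atTop 2))).exists
  refine ⟨k, hk3, fun w hw0 hwk => ?_⟩
  have hk3' : (2 : ℝ) ≤ k := by exact_mod_cast hk3
  exact pointwise h0 h1 (by linarith) hk1 (by linarith) hw0 hwk

variable {k : ℕ} {q : ℝ}

theorem norm_block (hk : 2 ≤ k) (hq1 : 1 ≤ q) (hq2 : q ≤ 2) (hgood : Good k q) (f : Fin k → ℝ)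
    (hf : ∀ a, 0 ≤ f a) :
    ((∑ a, f a) / k) ^ 2 + ((∑ a, (f a - (∑ a, f a) / k) ^ 2) / k) / (k - 1) ≤
      (((∑ a, f a ^ q) / k) ^ (1 / q)) ^ 2 := by
  have hk' : (2 : ℝ) ≤ k := by exact_mod_cast hk
  have hk0 : (0 : ℝ) < k := by linarith
  have hk1 : (0 : ℝ) < (k : ℝ) - 1 := by linarith
  have hq0 : 0 < q := by linarith
  set m : ℝ := (∑ a, f a) / k with hm
  have hsum : ∑ a, f a = k * m := by rw [hm]; field_simp
  have hm0 : 0 ≤ m := div_nonneg (Finset.sum_nonneg fun a _ => hf a) hk0.le
  rcases eq_or_lt_of_le hm0 with hz | hpos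
  · have h1 : ∀ a, f a = 0 := by
      have h2 : ∑ a, f a = 0 := by rw [hsum, ← hz, mul_zero]
      rw [Finset.sum_eq_zero_iff_of_nonneg (fun a _ => hf a)] at h2
      exact fun a => h2 a (Finset.mem_univ a)
    rw [← hz]
    simp only [h1]
    simp
    positivity
  · -- normalize
    have hle : ∀ a, f a / m ≤ k := by
      intro a
      rw [div_le_iff₀ hpos, ← hsum]
      exact Finset.single_le_sum (fun b _ => hf b) (Finset.mem_univ a)
    have hpt : ∑ a, ((f a / m - 1) ^ 2 / ((k : ℝ) - 1)) ≤
        ∑ a, ((f a / m) ^ q - 1 - q * (f a / m - 1)) :=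
      Finset.sum_le_sum fun a _ => hgood _ (div_nonneg (hf a) hm0) (hle a)
    have hs1 : ∑ a, ((f a / m) ^ q - 1 - q * (f a / m - 1)) = (∑ a, (f a / m) ^ q) - k := by
      have h2 : ∑ a, f a / m = k := by
        rw [← Finset.sum_div, hsum]
        field_simp
      simp only [Finset.sum_sub_distrib, ← Finset.mul_sum, h2]
      simp
    have hs2 : ∑ a, ((f a / m - 1) ^ 2 / ((k : ℝ) - 1)) =
        (∑ a, (f a - m) ^ 2) / (k - 1) / m ^ 2 := by
      rw [Finset.sum_div, Finset.sum_div]
      apply Finset.sum_congr rfl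
      intro a _
      field_simp
    rw [hs1, hs2] at hpt
    set Q : ℝ := (∑ a, (f a / m) ^ q) / k with hQ
    have hQsum : ∑ a, (f a / m) ^ q = k * Q := by rw [hQ]; field_simp
    have hV0 : 0 ≤ (∑ a, (f a - m) ^ 2) / ((k : ℝ) - 1) / m ^ 2 := by positivity
    have hQ1 : 1 + (∑ a, (f a - m) ^ 2) / ((k : ℝ) - 1) / m ^ 2 / k ≤ Q := by
      rw [hQsum] at hpt
      have h3 : (∑ a, (f a - m) ^ 2) / ((k : ℝ) - 1) / m ^ 2 / k ≤ Q - 1 := by
        rw [div_le_iff₀ hk0]
        linarith
      linarith
    have hQge : 1 ≤ Q := by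
      have : 0 ≤ (∑ a, (f a - m) ^ 2) / ((k : ℝ) - 1) / m ^ 2 / k := div_nonneg hV0 hk0.le
      linarith
    have hQ2 : Q ≤ Q ^ (2 / q) := by
      have h3 : Q ^ (1 : ℝ) ≤ Q ^ (2 / q) := by
        apply Real.rpow_le_rpow_of_exponent_le hQge
        rw [le_div_iff₀ hq0]
        linarith
      rwa [Real.rpow_one] at h3
    have hfq : (∑ a, f a ^ q) / k = m ^ q * Q := by
      rw [hQ, mul_div_assoc', Finset.mul_sum]
      congr 1
      apply Finset.sum_congr rfl
      intro a _
      rw [Real.div_rpow (hf a) hm0]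
      field_simp
    have hrhs : (((∑ a, f a ^ q) / k) ^ (1 / q)) ^ 2 = m ^ 2 * Q ^ (2 / q) := by
      rw [hfq, Real.mul_rpow (by positivity) (by linarith), ← Real.rpow_mul hm0]
      rw [mul_one_div_cancel hq0.ne', Real.rpow_one, mul_pow]
      congr 1
      rw [← Real.rpow_natCast, ← Real.rpow_mul (by linarith)]
      congr 1
      push_cast
      ring
    rw [hrhs]
    calc m ^ 2 + ((∑ a, (f a - m) ^ 2) / k) / (k - 1)
        = m ^ 2 * (1 + (∑ a, (f a - m) ^ 2) / ((k : ℝ) - 1) / m ^ 2 / k) := by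
          field_simp
      _ ≤ m ^ 2 * Q := mul_le_mul_of_nonneg_left hQ1 (by positivity)
      _ ≤ m ^ 2 * Q ^ (2 / q) := mul_le_mul_of_nonneg_left hQ2 (by positivity)

theorem block (hk : 2 ≤ k) (hq1 : 1 ≤ q) (hq2 : q ≤ 2) (hgood : Good k q) (f g : Fin k → ℝ)
    (hf : ∀ a, 0 ≤ f a) (hg : ∀ a, 0 ≤ g a) :
    (∑ a, ∑ b, if a ≠ b then f a * g b else 0) ≤
      (k * (k - 1)) * (((∑ a, f a ^ q) / k) ^ (1 / q) * ((∑ a, g a ^ q) / k) ^ (1 / q)) := by
  have hk' : (2 : ℝ) ≤ k := by exact_mod_cast hk
  have hk0 : (0 : ℝ) < k := by linarith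
  have hk1 : (0 : ℝ) < (k : ℝ) - 1 := by linarith
  have hnf := norm_block hk hq1 hq2 hgood f hf
  have hng := norm_block hk hq1 hq2 hgood g hg
  set F : ℝ := ((∑ a, f a ^ q) / k) ^ (1 / q) with hF
  set G : ℝ := ((∑ a, g a ^ q) / k) ^ (1 / q) with hG
  have hF0 : 0 ≤ F := Real.rpow_nonneg
    (div_nonneg (Finset.sum_nonneg fun a _ => Real.rpow_nonneg (hf a) _) hk0.le) _
  have hG0 : 0 ≤ G := Real.rpow_nonneg
    (div_nonneg (Finset.sum_nonneg fun a _ => Real.rpow_nonneg (hg a) _) hk0.le) _
  set m : ℝ := (∑ a, f a) / k with hm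
  set l : ℝ := (∑ a, g a) / k with hl
  have hsf : ∑ a, f a = k * m := by rw [hm]; field_simp
  have hsg : ∑ a, g a = k * l := by rw [hl]; field_simp
  have hm0 : 0 ≤ m := div_nonneg (Finset.sum_nonneg fun a _ => hf a) hk0.le
  have hl0 : 0 ≤ l := div_nonneg (Finset.sum_nonneg fun a _ => hg a) hk0.le
  set V : ℝ := (∑ a, (f a - m) ^ 2) / k with hV
  set W : ℝ := (∑ a, (g a - l) ^ 2) / k with hW
  have hV0 : 0 ≤ V := by positivity
  have hW0 : 0 ≤ W := by positivity
  set c : ℝ := (∑ a, (f a - m) * (g a - l)) / k with hc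
  have hcs : c ^ 2 ≤ V * W := by
    have h1 := Finset.sum_mul_sq_le_sq_mul_sq Finset.univ (fun a => f a - m) (fun a => g a - l)
    rw [hc, hV, hW, div_pow, div_mul_div_comm, ← sq]
    gcongr
  have hc' : c = (∑ a, f a * g a) / k - m * l := by
    have h1 : ∑ a, (f a - m) * (g a - l) = (∑ a, f a * g a) - k * (m * l) := by
      have h2 : ∀ a, (f a - m) * (g a - l) = f a * g a - f a * l - m * g a + m * l := by
        intro a; ring
      simp only [h2, Finset.sum_add_distrib, Finset.sum_sub_distrib, ← Finset.sum_mul,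
        ← Finset.mul_sum, hsf, hsg]
      simp
      ring
    rw [hc, h1]
    field_simp
  have hlhs : (∑ a, ∑ b, if a ≠ b then f a * g b else 0) =
      (k * (k - 1)) * (m * l - c / (k - 1)) := by
    have h1 : (∑ a, ∑ b, if a ≠ b then f a * g b else 0) =
        (∑ a, f a) * (∑ b, g b) - ∑ a, f a * g a := by
      rw [Finset.sum_mul_sum, ← Finset.sum_sub_distrib]
      apply Finset.sum_congr rfl
      intro a _
      have h2 : ∀ b, (if a ≠ b then f a * g b else 0) =
          f a * g b - (if a = b then f a * g b else 0) := by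
        intro b
        by_cases hab : a = b <;> simp [hab]
      simp only [h2, Finset.sum_sub_distrib]
      simp
    have h2 : ∑ a, f a * g a = k * (c + m * l) := by
      rw [hc']
      field_simp
      ring
    rw [h1, h2, hsf, hsg]
    field_simp
    ring
  rw [hlhs]
  apply mul_le_mul_of_nonneg_left _ (by positivity)
  have hFG : 0 ≤ F * G := mul_nonneg hF0 hG0
  refine le_of_sq_le_sq ?_ hFG
  calc (m * l - c / (k - 1)) ^ 2 ≤ (m ^ 2 + V / (k - 1)) * (l ^ 2 + W / (k - 1)) := by
        set ρ : ℝ := 1 / (k - 1) with hρ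
        have hρ0 : 0 ≤ ρ := by positivity
        have e1 : c / (k - 1) = ρ * c := by rw [hρ]; ring
        have e2 : V / (k - 1) = ρ * V := by rw [hρ]; ring
        have e3 : W / (k - 1) = ρ * W := by rw [hρ]; ring
        rw [e1, e2, e3]
        have h3 : |c| ≤ Real.sqrt V * Real.sqrt W := by
          rw [← Real.sqrt_mul hV0, ← Real.sqrt_sq_eq_abs]
          exact Real.sqrt_le_sqrt hcs
        have h4 : -(2 * (m * l) * c) ≤ m ^ 2 * W + l ^ 2 * V := by
          have h5 : -c ≤ Real.sqrt V * Real.sqrt W := (neg_le_abs c).trans h3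
          have h6 : 0 ≤ m * l := mul_nonneg hm0 hl0
          have h7 := Real.sq_sqrt hV0
          have h8 := Real.sq_sqrt hW0
          calc -(2 * (m * l) * c) = 2 * (m * l) * (-c) := by ring
            _ ≤ 2 * (m * l) * (Real.sqrt V * Real.sqrt W) :=
                mul_le_mul_of_nonneg_left h5 (by positivity)
            _ ≤ (m * Real.sqrt W) ^ 2 + (l * Real.sqrt V) ^ 2 := by
                nlinarith [sq_nonneg (m * Real.sqrt W - l * Real.sqrt V)]
            _ = m ^ 2 * W + l ^ 2 * V := by rw [mul_pow, mul_pow, h7, h8]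
        have h9 : ρ ^ 2 * c ^ 2 ≤ ρ ^ 2 * (V * W) := mul_le_mul_of_nonneg_left hcs (by positivity)
        have h10 : ρ * (-(2 * (m * l) * c)) ≤ ρ * (m ^ 2 * W + l ^ 2 * V) :=
          mul_le_mul_of_nonneg_left h4 hρ0
        nlinarith
    _ ≤ F ^ 2 * G ^ 2 := by
        apply mul_le_mul hnf hng (by positivity) (by positivity)
    _ = (F * G) ^ 2 := by ring

theorem sum_cons {D : ℕ} (F : (Fin (D + 1) → Fin k) → ℝ) :
    ∑ a, F a = ∑ x : Fin k, ∑ a : Fin D → Fin k, F (Fin.cons x a) := by
  rw [← Fintype.sum_prod_type']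
  exact (Fintype.sum_equiv (Fin.consEquiv (fun _ => Fin k)) _ _ (fun _ => rfl)).symm

theorem tensor (hk : 2 ≤ k) (hq1 : 1 ≤ q) (hq2 : q ≤ 2) (hgood : Good k q) :
    ∀ (D : ℕ) (f g : (Fin D → Fin k) → ℝ), (∀ a, 0 ≤ f a) → (∀ a, 0 ≤ g a) →
    (∑ a, ∑ b, if (∀ c, a c ≠ b c) then f a * g b else 0) ≤
      (k * (k - 1) : ℝ) ^ D * (((∑ a, f a ^ q) / (k : ℝ) ^ D) ^ (1 / q) *
        ((∑ a, g a ^ q) / (k : ℝ) ^ D) ^ (1 / q)) := by
  have hk' : (2 : ℝ) ≤ k := by exact_mod_cast hk
  have hk0 : (0 : ℝ) < k := by linarith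
  have hk1 : (0 : ℝ) < (k : ℝ) - 1 := by linarith
  have hq0 : 0 < q := by linarith
  intro D
  induction D with
  | zero =>
    intro f g hf hg
    have h1 : ∀ x : ℝ, 0 ≤ x → (x ^ q) ^ (1 / q) = x := by
      intro x hx
      rw [← Real.rpow_mul hx, mul_one_div_cancel hq0.ne', Real.rpow_one]
    simp only [Finset.univ_unique, Finset.sum_singleton, pow_zero, one_mul, div_one]
    rw [h1 _ (hf _), h1 _ (hg _)]
    simp
  | succ D ih =>
    intro f g hf hg
    let u : Fin k → ℝ := fun x => ((∑ a, f (Fin.cons x a) ^ q) / (k : ℝ) ^ D) ^ (1 / q)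
    let v : Fin k → ℝ := fun x => ((∑ a, g (Fin.cons x a) ^ q) / (k : ℝ) ^ D) ^ (1 / q)
    have hfs : ∀ x, 0 ≤ (∑ a, f (Fin.cons x a) ^ q) / (k : ℝ) ^ D := fun x =>
      div_nonneg (Finset.sum_nonneg fun a _ => Real.rpow_nonneg (hf _) _) (by positivity)
    have hgs : ∀ x, 0 ≤ (∑ a, g (Fin.cons x a) ^ q) / (k : ℝ) ^ D := fun x =>
      div_nonneg (Finset.sum_nonneg fun a _ => Real.rpow_nonneg (hg _) _) (by positivity)
    have hu : ∀ x, 0 ≤ u x := fun x => Real.rpow_nonneg (hfs x) _
    have hv : ∀ x, 0 ≤ v x := fun x => Real.rpow_nonneg (hgs x) _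
    have huq : (∑ x, u x ^ q) / k = (∑ a, f a ^ q) / (k : ℝ) ^ (D + 1) := by
      have h1 : ∀ x, u x ^ q = (∑ a, f (Fin.cons x a) ^ q) / (k : ℝ) ^ D := by
        intro x
        simp only [u]
        rw [← Real.rpow_mul (hfs x), one_div_mul_cancel hq0.ne', Real.rpow_one]
      simp only [h1]
      rw [sum_cons, ← Finset.sum_div, pow_succ, div_div]
    have hvq : (∑ x, v x ^ q) / k = (∑ a, g a ^ q) / (k : ℝ) ^ (D + 1) := by
      have h1 : ∀ x, v x ^ q = (∑ a, g (Fin.cons x a) ^ q) / (k : ℝ) ^ D := by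
        intro x
        simp only [v]
        rw [← Real.rpow_mul (hgs x), one_div_mul_cancel hq0.ne', Real.rpow_one]
      simp only [h1]
      rw [sum_cons, ← Finset.sum_div, pow_succ, div_div]
    have hcons : ∀ (x y : Fin k) (a b : Fin D → Fin k),
        (∀ c, (Fin.cons x a : Fin (D + 1) → Fin k) c ≠ (Fin.cons y b : Fin (D + 1) → Fin k) c) ↔
          (x ≠ y ∧ ∀ c, a c ≠ b c) := by
      intro x y a b
      rw [Fin.forall_fin_succ]
      simp
    have hsplit : (∑ a, ∑ b, if (∀ c, a c ≠ b c) then f a * g b else 0) =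
        ∑ x, ∑ y, if x ≠ y then (∑ a : Fin D → Fin k, ∑ b : Fin D → Fin k,
          if (∀ c, a c ≠ b c) then f (Fin.cons x a) * g (Fin.cons y b) else 0) else 0 := by
      rw [sum_cons]
      apply Finset.sum_congr rfl
      intro x _
      have h1 : ∀ a : Fin D → Fin k, (∑ b : Fin (D + 1) → Fin k,
          if (∀ c, (Fin.cons x a : Fin (D + 1) → Fin k) c ≠ b c) then
            f (Fin.cons x a) * g b else 0) =
          ∑ y, ∑ b : Fin D → Fin k, if (x ≠ y ∧ ∀ c, a c ≠ b c) then
            f (Fin.cons x a) * g (Fin.cons y b) else 0 := by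
        intro a
        rw [sum_cons]
        simp only [hcons]
      simp only [h1]
      rw [Finset.sum_comm]
      apply Finset.sum_congr rfl
      intro y _
      by_cases hxy : x = y
      · simp [hxy]
      · simp [hxy]
    rw [hsplit]
    calc (∑ x, ∑ y, if x ≠ y then (∑ a : Fin D → Fin k, ∑ b : Fin D → Fin k,
          if (∀ c, a c ≠ b c) then f (Fin.cons x a) * g (Fin.cons y b) else 0) else 0)
        ≤ ∑ x, ∑ y, if x ≠ y then ((k * (k - 1) : ℝ) ^ D * (u x * v y)) else 0 := by
          apply Finset.sum_le_sum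
          intro x _
          apply Finset.sum_le_sum
          intro y _
          by_cases hxy : x = y
          · simp [hxy]
          · simp only [ne_eq, hxy, not_false_iff, if_true]
            exact ih _ _ (fun a => hf _) (fun a => hg _)
      _ = (k * (k - 1) : ℝ) ^ D * ∑ x, ∑ y, if x ≠ y then u x * v y else 0 := by
          rw [Finset.mul_sum]
          apply Finset.sum_congr rfl
          intro x _
          rw [Finset.mul_sum]
          apply Finset.sum_congr rfl
          intro y _
          by_cases hxy : x = y <;> simp [hxy]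
      _ ≤ (k * (k - 1) : ℝ) ^ D * ((k * (k - 1)) * (((∑ x, u x ^ q) / k) ^ (1 / q) *
          ((∑ x, v x ^ q) / k) ^ (1 / q))) := by
          apply mul_le_mul_of_nonneg_left (block hk hq1 hq2 hgood u v hu hv) (by positivity)
      _ = _ := by
          rw [huq, hvq, pow_succ]
          ring

/-- The inequality for sets, given by indicator functions. -/
theorem tensor_set (hk : 2 ≤ k) (hq1 : 1 ≤ q) (hq2 : q ≤ 2) (hgood : Good k q) {D : ℕ}
    (f g : (Fin D → Fin k) → ℝ) (hf : ∀ a, f a = 0 ∨ f a = 1) (hg : ∀ a, g a = 0 ∨ g a = 1) :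
    (∑ a, ∑ b, if (∀ c, a c ≠ b c) then f a * g b else 0) ≤
      (k * (k - 1) : ℝ) ^ D * (((∑ a, f a) / (k : ℝ) ^ D) ^ (1 / q) *
        ((∑ a, g a) / (k : ℝ) ^ D) ^ (1 / q)) := by
  have hq0 : q ≠ 0 := by linarith
  have h1 : ∀ a, f a ^ q = f a := by
    intro a
    rcases hf a with h | h <;> rw [h] <;> simp [hq0]
  have h2 : ∀ a, g a ^ q = g a := by
    intro a
    rcases hg a with h | h <;> rw [h] <;> simp [hq0]
  have := tensor hk hq1 hq2 hgood D f g
    (fun a => by rcases hf a with h | h <;> rw [h]; exact zero_le_one)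
    (fun a => by rcases hg a with h | h <;> rw [h]; exact zero_le_one)
  simpa only [h1, h2] using this

/-- Power means. -/
theorem power_mean {ι : Type} [Fintype ι] [Nonempty ι] (hq1 : 1 ≤ q) (P : ι → ℝ)
    (hP : ∀ i, 0 ≤ P i) :
    ∑ i, P i ^ (1 / q) ≤ Fintype.card ι * ((∑ i, P i) / Fintype.card ι) ^ (1 / q) := by
  have hq0 : 0 < q := by linarith
  have hc : (0 : ℝ) < Fintype.card ι := by exact_mod_cast Fintype.card_pos
  have h1 := Real.rpow_arith_mean_le_arith_mean_rpow Finset.univ
    (fun _ : ι => 1 / (Fintype.card ι : ℝ)) (fun i => P i ^ (1 / q))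
    (fun _ _ => by positivity) (by simp) (fun i _ => Real.rpow_nonneg (hP i) _) hq1
  have h2 : ∀ i, (P i ^ (1 / q)) ^ q = P i := by
    intro i
    rw [← Real.rpow_mul (hP i), one_div_mul_cancel hq0.ne', Real.rpow_one]
  simp only [h2] at h1
  rw [← Finset.mul_sum, ← Finset.mul_sum] at h1
  have h3 : 0 ≤ 1 / (Fintype.card ι : ℝ) * ∑ i, P i ^ (1 / q) :=
    mul_nonneg (by positivity) (Finset.sum_nonneg fun i _ => Real.rpow_nonneg (hP i) _)
  have h4 : 1 / (Fintype.card ι : ℝ) * ∑ i, P i ^ (1 / q) ≤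
      ((∑ i, P i) / Fintype.card ι) ^ (1 / q) := by
    have h5 := Real.rpow_le_rpow (Real.rpow_nonneg h3 q) h1 (show 0 ≤ 1 / q by positivity)
    rw [← Real.rpow_mul h3, mul_one_div_cancel hq0.ne', Real.rpow_one] at h5
    convert h5 using 2
    ring
  calc ∑ i, P i ^ (1 / q) =
        Fintype.card ι * (1 / (Fintype.card ι : ℝ) * ∑ i, P i ^ (1 / q)) := by
          field_simp
    _ ≤ _ := mul_le_mul_of_nonneg_left h4 hc.le

/-- `(XY)^(1/q)` is at most `X + Y + XY`. -/
theorem rpow_le_cost (hq1 : 1 ≤ q) (hq2 : q ≤ 2) {X Y : ℝ} (hX : 0 ≤ X) (hY : 0 ≤ Y) :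
    (X * Y) ^ (1 / q) ≤ X + Y + X * Y := by
  have hq0 : 0 < q := by linarith
  have hXY := mul_nonneg hX hY
  rcases le_total 1 (X * Y) with h | h
  · have h1 : (X * Y) ^ (1 / q) ≤ (X * Y) ^ (1 : ℝ) := by
      apply Real.rpow_le_rpow_of_exponent_le h
      rw [div_le_one hq0]
      exact hq1
    rw [Real.rpow_one] at h1
    linarith
  · have h1 : (X * Y) ^ (1 / q) ≤ (X * Y) ^ (1 / 2 : ℝ) := by
      rcases eq_or_lt_of_le hXY with h0 | h0
      · rw [← h0, Real.zero_rpow (by positivity), Real.zero_rpow (by norm_num)]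
      · apply Real.rpow_le_rpow_of_exponent_ge h0 h
        rw [div_le_div_iff₀ (by norm_num) hq0]
        linarith
    rw [← Real.sqrt_eq_rpow] at h1
    have h2 : Real.sqrt (X * Y) ≤ X + Y := by
      rw [Real.sqrt_le_left (by positivity)]
      nlinarith
    linarith

/-! ### Counting -/

/-- Strings of length `D` over an alphabet with `k` letters. -/
abbrev Str (k D : ℕ) : Type := Fin D → Fin k

/-- The two strings differ everywhere. -/
abbrev Off {k D : ℕ} (a b : Str k D) : Prop := ∀ c, a c ≠ b c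

variable {n d D : ℕ}

theorem resample {U : Type} [Fintype U] (i : Fin n) (h : (Fin n → U) → ℝ) :
    ∑ z, ∑ a, h (Function.update z i a) = Fintype.card U * ∑ z, h z := by
  classical
  rw [← Fintype.sum_prod_type']
  have hinv : Function.Involutive fun p : (Fin n → U) × U =>
      (Function.update p.1 i p.2, p.1 i) := by
    rintro ⟨z, a⟩
    simp
  have h1 : ∑ p : (Fin n → U) × U, h (Function.update p.1 i p.2) =
      ∑ p : (Fin n → U) × U, h p.1 :=
    Fintype.sum_equiv (hinv.toPerm _) _ _ (fun _ => rfl)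
  rw [h1, Fintype.sum_prod_type]
  simp only [Finset.sum_const, Finset.card_univ, nsmul_eq_mul]
  rw [← Finset.mul_sum]

theorem count_off (hk : 1 ≤ k) (s : Str k D) :
    (∑ a : Str k D, if Off a s then (1 : ℝ) else 0) = ((k : ℝ) - 1) ^ D := by
  classical
  rw [← Finset.sum_filter, Finset.sum_const, nsmul_eq_mul, mul_one]
  have h1 : (Finset.univ.filter fun a : Str k D => Off a s) =
      Fintype.piFinset fun c => Finset.univ.erase (s c) := by
    ext a
    simp [Fintype.mem_piFinset]
  rw [h1, Fintype.card_piFinset]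
  simp only [Finset.card_erase_of_mem (Finset.mem_univ _), Finset.card_univ, Fintype.card_fin,
    Finset.prod_const]
  push_cast [Nat.cast_sub hk]
  ring

theorem count_off' (hk : 1 ≤ k) (s : Str k D) :
    (∑ a : Str k D, if Off s a then (1 : ℝ) else 0) = ((k : ℝ) - 1) ^ D := by
  rw [← count_off hk s]
  apply Finset.sum_congr rfl
  intro a _
  have : Off s a ↔ Off a s := forall_congr' fun c => ne_comm
  simp only [this]

theorem count_off_update (hk : 2 ≤ k) (i : Fin n) (s : Str k D) :
    (∑ z : Fin n → Str k D, if Off (z i) s then (1 : ℝ) else 0) =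
      (((k : ℝ) - 1) / k) ^ D * ((k : ℝ) ^ D) ^ n := by
  classical
  have hk' : (2 : ℝ) ≤ k := by exact_mod_cast hk
  have hk0 : (0 : ℝ) < k := by linarith
  have h1 := resample (U := Str k D) i fun z => if Off (z i) s then (1 : ℝ) else 0
  simp only [Function.update_self] at h1
  rw [Finset.sum_congr rfl fun z _ => count_off (by omega) s] at h1
  simp only [Finset.sum_const, Finset.card_univ, nsmul_eq_mul, Fintype.card_fun,
    Fintype.card_fin] at h1
  push_cast at h1
  rw [div_pow]
  field_simp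
  linarith

theorem count_off_update' (hk : 2 ≤ k) (i : Fin n) (s : Str k D) :
    (∑ z : Fin n → Str k D, if Off s (z i) then (1 : ℝ) else 0) =
      (((k : ℝ) - 1) / k) ^ D * ((k : ℝ) ^ D) ^ n := by
  rw [← count_off_update hk i s]
  apply Finset.sum_congr rfl
  intro a _
  have : Off s (a i) ↔ Off (a i) s := forall_congr' fun c => ne_comm
  simp only [this]

open Classical in
/-- The planted pair rarely meets in one fixed bucket. -/
theorem planted (hn : 1 ≤ n) (hk : 2 ≤ k) (hq1 : 1 ≤ q) (hq2 : q ≤ 2) (hgood : Good k q)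
    (L R : (Fin n → Str k D) → Finset (Fin n)) :
    (∑ p : Fin n × (Fin n → Str k D), ∑ r : Fin n × (Fin n → Str k D),
      ∑ a : Str k D, ∑ b : Str k D, if Off a b then
        (if p.1 ∈ L (Function.update p.2 p.1 a) then (1 : ℝ) else 0) *
        (if r.1 ∈ R (Function.update r.2 r.1 b) then (1 : ℝ) else 0) else 0) ≤
      ((n * ((k : ℝ) ^ D) ^ n) ^ 2 * (k * (k - 1) : ℝ) ^ D) / ((n : ℝ) ^ 2) ^ (1 / q) *
        ((∑ z, ((L z).card : ℝ)) / ((k : ℝ) ^ D) ^ n + (∑ z, ((R z).card : ℝ)) / ((k : ℝ) ^ D) ^ n +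
          (∑ z, ((L z).card : ℝ)) / ((k : ℝ) ^ D) ^ n *
            ((∑ z, ((R z).card : ℝ)) / ((k : ℝ) ^ D) ^ n)) := by
  have hk' : (2 : ℝ) ≤ k := by exact_mod_cast hk
  have hk0 : (0 : ℝ) < k := by linarith
  have hk1 : (0 : ℝ) < (k : ℝ) - 1 := by linarith
  have hn' : (0 : ℝ) < n := by exact_mod_cast hn
  have hq0 : 0 < q := by linarith
  have : Nonempty (Fin n) := ⟨⟨0, hn⟩⟩
  have : Nonempty (Fin k) := ⟨⟨0, by omega⟩⟩
  -- one side
  have hside : ∀ L : (Fin n → Str k D) → Finset (Fin n),
      ∑ p : Fin n × (Fin n → Str k D), ((∑ a : Str k D,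
        if p.1 ∈ L (Function.update p.2 p.1 a) then (1 : ℝ) else 0) / (k : ℝ) ^ D) ^ (1 / q) ≤
      (n * ((k : ℝ) ^ D) ^ n) * (((∑ z, ((L z).card : ℝ)) / ((k : ℝ) ^ D) ^ n) / n) ^ (1 / q) := by
    intro L
    have h1 := power_mean hq1 (fun p : Fin n × (Fin n → Str k D) => (∑ a : Str k D,
        if p.1 ∈ L (Function.update p.2 p.1 a) then (1 : ℝ) else 0) / (k : ℝ) ^ D)
      (fun p => div_nonneg (Finset.sum_nonneg fun a _ => by split_ifs <;> norm_num)
        (by positivity))
    have h2 : ∑ p : Fin n × (Fin n → Str k D), (∑ a : Str k D,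
        if p.1 ∈ L (Function.update p.2 p.1 a) then (1 : ℝ) else 0) / (k : ℝ) ^ D =
        ∑ z, ((L z).card : ℝ) := by
      rw [Fintype.sum_prod_type]
      have h3 : ∀ i : Fin n, ∑ z : Fin n → Str k D, (∑ a : Str k D,
          if i ∈ L (Function.update z i a) then (1 : ℝ) else 0) / (k : ℝ) ^ D =
          ∑ z, if i ∈ L z then (1 : ℝ) else 0 := by
        intro i
        rw [← Finset.sum_div, resample i fun z => if i ∈ L z then (1 : ℝ) else 0]
        simp only [Fintype.card_fun, Fintype.card_fin]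
        push_cast
        field_simp
      simp only [h3]
      rw [Finset.sum_comm]
      apply Finset.sum_congr rfl
      intro z _
      simp
    have h4 : (Fintype.card (Fin n × (Fin n → Str k D)) : ℝ) = n * ((k : ℝ) ^ D) ^ n := by
      simp [Fintype.card_prod]
    rw [h2, h4] at h1
    convert h1 using 3
    field_simp
  have hinner : ∀ p r : Fin n × (Fin n → Str k D), (∑ a : Str k D, ∑ b : Str k D, if Off a b then
        (if p.1 ∈ L (Function.update p.2 p.1 a) then (1 : ℝ) else 0) *
        (if r.1 ∈ R (Function.update r.2 r.1 b) then (1 : ℝ) else 0) else 0) ≤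
      (k * (k - 1) : ℝ) ^ D * (((∑ a : Str k D,
        if p.1 ∈ L (Function.update p.2 p.1 a) then (1 : ℝ) else 0) / (k : ℝ) ^ D) ^ (1 / q) *
        ((∑ b : Str k D,
        if r.1 ∈ R (Function.update r.2 r.1 b) then (1 : ℝ) else 0) / (k : ℝ) ^ D) ^ (1 / q)) := by
    intro p r
    refine tensor_set hk hq1 hq2 hgood
      (fun a => if p.1 ∈ L (Function.update p.2 p.1 a) then (1 : ℝ) else 0)
      (fun b => if r.1 ∈ R (Function.update r.2 r.1 b) then (1 : ℝ) else 0)
      (fun a => ?_) (fun b => ?_)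
    · show (if p.1 ∈ L (Function.update p.2 p.1 a) then (1 : ℝ) else 0) = 0 ∨
        (if p.1 ∈ L (Function.update p.2 p.1 a) then (1 : ℝ) else 0) = 1
      split_ifs
      · exact Or.inr rfl
      · exact Or.inl rfl
    · show (if r.1 ∈ R (Function.update r.2 r.1 b) then (1 : ℝ) else 0) = 0 ∨
        (if r.1 ∈ R (Function.update r.2 r.1 b) then (1 : ℝ) else 0) = 1
      split_ifs
      · exact Or.inr rfl
      · exact Or.inl rfl
  have hX0 : 0 ≤ (∑ z, ((L z).card : ℝ)) / ((k : ℝ) ^ D) ^ n := by positivity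
  have hY0 : 0 ≤ (∑ z, ((R z).card : ℝ)) / ((k : ℝ) ^ D) ^ n := by positivity
  have hL := hside L
  have hR := hside R
  generalize (∑ z, ((L z).card : ℝ)) / ((k : ℝ) ^ D) ^ n = X at hX0 hL ⊢
  generalize (∑ z, ((R z).card : ℝ)) / ((k : ℝ) ^ D) ^ n = Y at hY0 hR ⊢
  have hO : (0 : ℝ) ≤ (k * (k - 1) : ℝ) ^ D := by positivity
  calc _ ≤ ∑ p : Fin n × (Fin n → Str k D), ∑ r : Fin n × (Fin n → Str k D),
        (k * (k - 1) : ℝ) ^ D * (((∑ a : Str k D,
        if p.1 ∈ L (Function.update p.2 p.1 a) then (1 : ℝ) else 0) / (k : ℝ) ^ D) ^ (1 / q) *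
        ((∑ b : Str k D,
        if r.1 ∈ R (Function.update r.2 r.1 b) then (1 : ℝ) else 0) / (k : ℝ) ^ D) ^ (1 / q)) :=
        Finset.sum_le_sum fun p _ => Finset.sum_le_sum fun r _ => hinner p r
    _ = (k * (k - 1) : ℝ) ^ D * ((∑ p : Fin n × (Fin n → Str k D), ((∑ a : Str k D,
        if p.1 ∈ L (Function.update p.2 p.1 a) then (1 : ℝ) else 0) / (k : ℝ) ^ D) ^ (1 / q)) *
        (∑ r : Fin n × (Fin n → Str k D), ((∑ b : Str k D,
        if r.1 ∈ R (Function.update r.2 r.1 b) then (1 : ℝ) else 0) /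
          (k : ℝ) ^ D) ^ (1 / q))) := by
        rw [Finset.sum_mul_sum, Finset.mul_sum]
        apply Finset.sum_congr rfl
        intro p _
        rw [Finset.mul_sum]
    _ ≤ (k * (k - 1) : ℝ) ^ D * (((n * ((k : ℝ) ^ D) ^ n) * (X / n) ^ (1 / q)) *
        ((n * ((k : ℝ) ^ D) ^ n) * (Y / n) ^ (1 / q))) := by
        apply mul_le_mul_of_nonneg_left _ hO
        apply mul_le_mul hL hR
        · apply Finset.sum_nonneg
          intro p _
          apply Real.rpow_nonneg
          apply div_nonneg _ (by positivity)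
          apply Finset.sum_nonneg
          intro a _
          split_ifs <;> norm_num
        · positivity
    _ = ((n * ((k : ℝ) ^ D) ^ n) ^ 2 * (k * (k - 1) : ℝ) ^ D) / ((n : ℝ) ^ 2) ^ (1 / q) *
        (X * Y) ^ (1 / q) := by
        have h1 : (X / n) ^ (1 / q) * (Y / n) ^ (1 / q) =
            (X * Y) ^ (1 / q) / ((n : ℝ) ^ 2) ^ (1 / q) := by
          rw [← Real.mul_rpow (by positivity) (by positivity), ← Real.div_rpow (by positivity)
            (by positivity)]
          congr 1
          rw [div_mul_div_comm, sq]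
        calc (k * (k - 1) : ℝ) ^ D * (((n * ((k : ℝ) ^ D) ^ n) * (X / n) ^ (1 / q)) *
              ((n * ((k : ℝ) ^ D) ^ n) * (Y / n) ^ (1 / q)))
            = ((n * ((k : ℝ) ^ D) ^ n) ^ 2 * (k * (k - 1) : ℝ) ^ D) *
              ((X / n) ^ (1 / q) * (Y / n) ^ (1 / q)) := by ring
          _ = _ := by
              rw [h1]
              ring
    _ ≤ _ := by
        apply mul_le_mul_of_nonneg_left _ (by positivity)
        exact rpow_le_cost hq1 hq2 hX0 hY0

theorem count_pairs (hk : 2 ≤ k) :
    (∑ a : Str k D, ∑ b : Str k D, if Off a b then (1 : ℝ) else 0) =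
      (k * (k - 1) : ℝ) ^ D := by
  simp only [count_off' (by omega : 1 ≤ k)]
  simp only [Finset.sum_const, Finset.card_univ, Fintype.card_fun, Fintype.card_fin, nsmul_eq_mul]
  push_cast
  rw [mul_pow]

open Classical in
/-- A pair different from the planted one is rarely orthogonal. -/
theorem accidental (hk : 2 ≤ k) (i j i' j' : Fin n) (hne : i' ≠ i ∨ j' ≠ j) :
    (∑ z : Fin n → Str k D, ∑ w : Fin n → Str k D, ∑ a : Str k D, ∑ b : Str k D,
      if Off a b then (if Off (Function.update z i a i') (Function.update w j b j')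
        then (1 : ℝ) else 0) else 0) =
      (((k : ℝ) - 1) / k) ^ D * ((((k : ℝ) ^ D) ^ n) ^ 2 * (k * (k - 1) : ℝ) ^ D) := by
  rcases hne with h | h
  · simp only [Function.update_of_ne h]
    rw [Finset.sum_comm]
    have h1 : ∀ w : Fin n → Str k D, (∑ z : Fin n → Str k D, ∑ a : Str k D, ∑ b : Str k D,
        if Off a b then (if Off (z i') (Function.update w j b j') then (1 : ℝ) else 0) else 0) =
        (k * (k - 1) : ℝ) ^ D * ((((k : ℝ) - 1) / k) ^ D * ((k : ℝ) ^ D) ^ n) := by
      intro w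
      rw [Finset.sum_comm, ← count_pairs hk, Finset.sum_mul]
      apply Finset.sum_congr rfl
      intro a _
      rw [Finset.sum_comm, Finset.sum_mul]
      apply Finset.sum_congr rfl
      intro b _
      by_cases hab : Off a b
      · simp only [if_pos hab, one_mul]
        exact count_off_update hk i' _
      · simp only [if_neg hab, Finset.sum_const_zero, zero_mul]
    simp only [h1]
    simp only [Finset.sum_const, Finset.card_univ, Fintype.card_fun, Fintype.card_fin,
      nsmul_eq_mul]
    push_cast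
    ring
  · simp only [Function.update_of_ne h]
    have h1 : ∀ z : Fin n → Str k D, (∑ w : Fin n → Str k D, ∑ a : Str k D, ∑ b : Str k D,
        if Off a b then (if Off (Function.update z i a i') (w j') then (1 : ℝ) else 0) else 0) =
        (k * (k - 1) : ℝ) ^ D * ((((k : ℝ) - 1) / k) ^ D * ((k : ℝ) ^ D) ^ n) := by
      intro z
      rw [Finset.sum_comm, ← count_pairs hk, Finset.sum_mul]
      apply Finset.sum_congr rfl
      intro a _
      rw [Finset.sum_comm, Finset.sum_mul]
      apply Finset.sum_congr rfl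
      intro b _
      by_cases hab : Off a b
      · simp only [if_pos hab, one_mul]
        exact count_off_update' hk j' _
      · simp only [if_neg hab, Finset.sum_const_zero, zero_mul]
    simp only [h1]
    simp only [Finset.sum_const, Finset.card_univ, Fintype.card_fun, Fintype.card_fin,
      nsmul_eq_mul]
    push_cast
    ring

/-- The test input with the given strings. -/
def tst (E : Pos n → Str k D → Vec d) (z w : Fin n → Str k D) : Input n d := fun p =>
  E p (if p.1 = false then z p.2 else w p.2)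

/-- The planted tests: a position and a list for each side, and two strings which differ
everywhere. -/
abbrev Plant (n k D : ℕ) : Type :=
  (Fin n × (Fin n → Str k D)) × (Fin n × (Fin n → Str k D)) ×
    {ab : Str k D × Str k D // Off ab.1 ab.2}

/-- The input of a planted test. -/
def Plant.input (E : Pos n → Str k D → Vec d) (τ : Plant n k D) : Input n d :=
  tst E (Function.update τ.1.2 τ.1.1 τ.2.2.1.1) (Function.update τ.2.1.2 τ.2.1.1 τ.2.2.1.2)

theorem sum_plant (F : (Fin n × (Fin n → Str k D)) → (Fin n × (Fin n → Str k D)) →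
    Str k D → Str k D → ℝ) :
    ∑ τ : Plant n k D, F τ.1 τ.2.1 τ.2.2.1.1 τ.2.2.1.2 =
      ∑ p, ∑ r, ∑ a : Str k D, ∑ b : Str k D, if Off a b then F p r a b else 0 := by
  classical
  rw [Fintype.sum_prod_type]
  apply Finset.sum_congr rfl
  intro p _
  rw [Fintype.sum_prod_type]
  apply Finset.sum_congr rfl
  intro r _
  rw [← Fintype.sum_prod_type', ← Finset.sum_filter]
  exact (Finset.sum_subtype (Finset.univ.filter fun ab : Str k D × Str k D => Off ab.1 ab.2)
    (by simp) (fun ab => F p r ab.1 ab.2)).symm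

theorem card_plant (hk : 2 ≤ k) :
    (Fintype.card (Plant n k D) : ℝ) = (n * ((k : ℝ) ^ D) ^ n) ^ 2 * (k * (k - 1) : ℝ) ^ D := by
  have h1 : (Fintype.card (Plant n k D) : ℝ) = ∑ _τ : Plant n k D, (1 : ℝ) := by simp
  rw [h1, sum_plant fun _ _ _ _ => (1 : ℝ)]
  simp only [count_pairs hk]
  simp only [Finset.sum_const, Finset.card_univ, Fintype.card_prod, Fintype.card_fun,
    Fintype.card_fin, nsmul_eq_mul]
  push_cast
  ring

open Classical in
/-- The success of a scheme on planted tests is bounded by its average cost on random tests. -/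
theorem per_scheme (hn : 1 ≤ n) (hk : 2 ≤ k) (hq1 : 1 ≤ q) (hq2 : q ≤ 2) (hgood : Good k q)
    (E : Pos n → Str k D → Vec d)
    (hE : ∀ z w i j, Orthogonal (tst E z w) i j ↔ Off (z i) (w j)) (S : Scheme n d) :
    ((Finset.univ.filter fun τ : Plant n k D => S.Finds (τ.input E)).card : ℝ) ≤
      Fintype.card (Plant n k D) * (n ^ 2 * (((k : ℝ) - 1) / k) ^ D) +
      Fintype.card (Plant n k D) / ((n : ℝ) ^ 2) ^ (1 / q) *
        ((∑ z, ∑ w, (S.cost (tst E z w) : ℝ)) / (((k : ℝ) ^ D) ^ n) ^ 2) := by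
  have hk' : (2 : ℝ) ≤ k := by exact_mod_cast hk
  have hk0 : (0 : ℝ) < k := by linarith
  let L : Fin S.buckets → (Fin n → Str k D) → Finset (Fin n) := fun t z =>
    S.left t fun i => E (false, i) (z i)
  let R : Fin S.buckets → (Fin n → Str k D) → Finset (Fin n) := fun t w =>
    S.right t fun j => E (true, j) (w j)
  have hL : ∀ t z w, (S.left t fun i => tst E z w (false, i)) = L t z := fun t z w => by
    simp [L, tst]
  have hR : ∀ t z w, (S.right t fun j => tst E z w (true, j)) = R t w := fun t z w => by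
    simp [R, tst]
  -- the pointwise bound
  have hpt : ∀ τ : Plant n k D, (if S.Finds (τ.input E) then (1 : ℝ) else 0) ≤
      (∑ t, (if τ.1.1 ∈ L t (Function.update τ.1.2 τ.1.1 τ.2.2.1.1) then (1 : ℝ) else 0) *
        (if τ.2.1.1 ∈ R t (Function.update τ.2.1.2 τ.2.1.1 τ.2.2.1.2) then (1 : ℝ) else 0)) +
      ∑ i' : Fin n, ∑ j' : Fin n, (if i' ≠ τ.1.1 ∨ j' ≠ τ.2.1.1 then
        (if Off (Function.update τ.1.2 τ.1.1 τ.2.2.1.1 i')
          (Function.update τ.2.1.2 τ.2.1.1 τ.2.2.1.2 j') then (1 : ℝ) else 0) else 0) := by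
    intro τ
    have hA : ∀ t, 0 ≤ (if τ.1.1 ∈ L t (Function.update τ.1.2 τ.1.1 τ.2.2.1.1) then (1 : ℝ) else 0) *
        (if τ.2.1.1 ∈ R t (Function.update τ.2.1.2 τ.2.1.1 τ.2.2.1.2) then (1 : ℝ) else 0) := by
      intro t
      apply mul_nonneg <;> split_ifs <;> norm_num
    have hB : ∀ i' j' : Fin n, 0 ≤ (if i' ≠ τ.1.1 ∨ j' ≠ τ.2.1.1 then
        (if Off (Function.update τ.1.2 τ.1.1 τ.2.2.1.1 i')
          (Function.update τ.2.1.2 τ.2.1.1 τ.2.2.1.2 j') then (1 : ℝ) else 0) else 0) := by
      intro i' j'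
      split_ifs <;> norm_num
    by_cases hf : S.Finds (τ.input E)
    · rw [if_pos hf]
      obtain ⟨t, i', hi', j', hj', ho⟩ := hf
      unfold Plant.input at hi' hj' ho
      rw [hL] at hi'
      rw [hR] at hj'
      rw [hE] at ho
      by_cases hc : i' ≠ τ.1.1 ∨ j' ≠ τ.2.1.1
      · have h1 : (1 : ℝ) ≤ ∑ i' : Fin n, ∑ j' : Fin n, (if i' ≠ τ.1.1 ∨ j' ≠ τ.2.1.1 then
            (if Off (Function.update τ.1.2 τ.1.1 τ.2.2.1.1 i')
              (Function.update τ.2.1.2 τ.2.1.1 τ.2.2.1.2 j') then (1 : ℝ) else 0) else 0) := by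
          refine le_trans ?_ (Finset.single_le_sum
            (fun i' _ => Finset.sum_nonneg fun j' _ => hB i' j') (Finset.mem_univ i'))
          refine le_trans ?_ (Finset.single_le_sum (fun j' _ => hB i' j') (Finset.mem_univ j'))
          rw [if_pos hc, if_pos ho]
        have h2 := Finset.sum_nonneg fun t (_ : t ∈ Finset.univ) => hA t
        linarith
      · push Not at hc
        obtain ⟨rfl, rfl⟩ := hc
        have h1 : (1 : ℝ) ≤ ∑ t, (if τ.1.1 ∈ L t (Function.update τ.1.2 τ.1.1 τ.2.2.1.1)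
            then (1 : ℝ) else 0) *
            (if τ.2.1.1 ∈ R t (Function.update τ.2.1.2 τ.2.1.1 τ.2.2.1.2) then (1 : ℝ) else 0) := by
          refine le_trans ?_ (Finset.single_le_sum (fun t _ => hA t) (Finset.mem_univ t))
          rw [if_pos hi', if_pos hj', one_mul]
        have h2 := Finset.sum_nonneg fun i' (_ : i' ∈ (Finset.univ : Finset (Fin n))) =>
          Finset.sum_nonneg fun j' (_ : j' ∈ (Finset.univ : Finset (Fin n))) => hB i' j'
        linarith
    · rw [if_neg hf]
      exact add_nonneg (Finset.sum_nonneg fun t _ => hA t)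
        (Finset.sum_nonneg fun i' _ => Finset.sum_nonneg fun j' _ => hB i' j')
  have hcount : ((Finset.univ.filter fun τ : Plant n k D => S.Finds (τ.input E)).card : ℝ) =
      ∑ τ : Plant n k D, if S.Finds (τ.input E) then (1 : ℝ) else 0 := by
    rw [Finset.card_filter]
    push_cast
    rfl
  -- the first sum
  have hP : ∑ τ : Plant n k D, (∑ t,
      (if τ.1.1 ∈ L t (Function.update τ.1.2 τ.1.1 τ.2.2.1.1) then (1 : ℝ) else 0) *
        (if τ.2.1.1 ∈ R t (Function.update τ.2.1.2 τ.2.1.1 τ.2.2.1.2) then (1 : ℝ) else 0)) ≤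
      Fintype.card (Plant n k D) / ((n : ℝ) ^ 2) ^ (1 / q) *
        ((∑ z, ∑ w, (S.cost (tst E z w) : ℝ)) / (((k : ℝ) ^ D) ^ n) ^ 2) := by
    rw [Finset.sum_comm]
    have hcost : (∑ z, ∑ w, (S.cost (tst E z w) : ℝ)) / (((k : ℝ) ^ D) ^ n) ^ 2 =
        ∑ t, ((∑ z, ((L t z).card : ℝ)) / ((k : ℝ) ^ D) ^ n +
          (∑ z, ((R t z).card : ℝ)) / ((k : ℝ) ^ D) ^ n +
          (∑ z, ((L t z).card : ℝ)) / ((k : ℝ) ^ D) ^ n *
            ((∑ z, ((R t z).card : ℝ)) / ((k : ℝ) ^ D) ^ n)) := by
      have h1 : ∀ z w, (S.cost (tst E z w) : ℝ) =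
          ∑ t, (((L t z).card : ℝ) + ((R t w).card : ℝ) + (L t z).card * (R t w).card) := by
        intro z w
        unfold Scheme.cost
        simp only [hL, hR]
        push_cast
        rfl
      simp only [h1]
      have h2 : ∑ z, ∑ w, ∑ t, (((L t z).card : ℝ) + ((R t w).card : ℝ) +
          (L t z).card * (R t w).card) =
          ∑ t, ∑ z, ∑ w, (((L t z).card : ℝ) + ((R t w).card : ℝ) +
          (L t z).card * (R t w).card) := by
        rw [Finset.sum_congr rfl fun z _ => Finset.sum_comm]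
        rw [Finset.sum_comm]
      rw [h2, Finset.sum_div]
      apply Finset.sum_congr rfl
      intro t _
      have h3 : ∑ z, ∑ w, (((L t z).card : ℝ) + ((R t w).card : ℝ) +
          (L t z).card * (R t w).card) =
          ((k : ℝ) ^ D) ^ n * (∑ z, ((L t z).card : ℝ)) +
          ((k : ℝ) ^ D) ^ n * (∑ z, ((R t z).card : ℝ)) +
          (∑ z, ((L t z).card : ℝ)) * (∑ z, ((R t z).card : ℝ)) := by
        simp only [Finset.sum_add_distrib, Finset.sum_const, Finset.card_univ,
          Fintype.card_fun, Fintype.card_fin, nsmul_eq_mul, ← Finset.mul_sum]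
        rw [← Finset.sum_mul]
        push_cast
        ring
      rw [h3]
      have hN : ((k : ℝ) ^ D) ^ n ≠ 0 := by positivity
      generalize (∑ z, ((L t z).card : ℝ)) = X
      generalize (∑ z, ((R t z).card : ℝ)) = Y
      generalize ((k : ℝ) ^ D) ^ n = N at hN
      field_simp
    rw [hcost, Finset.mul_sum]
    apply Finset.sum_le_sum
    intro t _
    have h1 := planted (D := D) hn hk hq1 hq2 hgood (L t) (R t)
    rw [card_plant hk]
    rw [sum_plant fun p r a b =>
      (if p.1 ∈ L t (Function.update p.2 p.1 a) then (1 : ℝ) else 0) *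
        (if r.1 ∈ R t (Function.update r.2 r.1 b) then (1 : ℝ) else 0)]
    exact h1
  -- the second sum
  have hQ : ∑ τ : Plant n k D, (∑ i' : Fin n, ∑ j' : Fin n,
      (if i' ≠ τ.1.1 ∨ j' ≠ τ.2.1.1 then
        (if Off (Function.update τ.1.2 τ.1.1 τ.2.2.1.1 i')
          (Function.update τ.2.1.2 τ.2.1.1 τ.2.2.1.2 j') then (1 : ℝ) else 0) else 0)) ≤
      Fintype.card (Plant n k D) * (n ^ 2 * (((k : ℝ) - 1) / k) ^ D) := by
    have h1 : ∀ i' j' : Fin n, ∑ τ : Plant n k D, (if i' ≠ τ.1.1 ∨ j' ≠ τ.2.1.1 then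
        (if Off (Function.update τ.1.2 τ.1.1 τ.2.2.1.1 i')
          (Function.update τ.2.1.2 τ.2.1.1 τ.2.2.1.2 j') then (1 : ℝ) else 0) else 0) ≤
        Fintype.card (Plant n k D) * (((k : ℝ) - 1) / k) ^ D := by
      intro i' j'
      rw [sum_plant fun p r a b => (if i' ≠ p.1 ∨ j' ≠ r.1 then
        (if Off (Function.update p.2 p.1 a i') (Function.update r.2 r.1 b j')
          then (1 : ℝ) else 0) else 0)]
      rw [Fintype.sum_prod_type]
      have h2 : ∀ i : Fin n, ∑ z : Fin n → Str k D, ∑ r : Fin n × (Fin n → Str k D),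
          ∑ a : Str k D, ∑ b : Str k D, (if Off a b then (if i' ≠ i ∨ j' ≠ r.1 then
            (if Off (Function.update z i a i') (Function.update r.2 r.1 b j')
              then (1 : ℝ) else 0) else 0) else 0) ≤
          n * ((((k : ℝ) - 1) / k) ^ D * ((((k : ℝ) ^ D) ^ n) ^ 2 * (k * (k - 1) : ℝ) ^ D)) := by
        intro i
        have h3 : ∀ z : Fin n → Str k D, ∑ r : Fin n × (Fin n → Str k D),
          ∑ a : Str k D, ∑ b : Str k D, (if Off a b then (if i' ≠ i ∨ j' ≠ r.1 then
            (if Off (Function.update z i a i') (Function.update r.2 r.1 b j')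
              then (1 : ℝ) else 0) else 0) else 0) =
            ∑ j : Fin n, ∑ w : Fin n → Str k D,
            ∑ a : Str k D, ∑ b : Str k D, (if Off a b then (if i' ≠ i ∨ j' ≠ j then
            (if Off (Function.update z i a i') (Function.update w j b j')
              then (1 : ℝ) else 0) else 0) else 0) := by
          intro z
          rw [Fintype.sum_prod_type]
        simp only [h3]
        rw [Finset.sum_comm]
        calc _ ≤ ∑ _j : Fin n, ((((k : ℝ) - 1) / k) ^ D *
              ((((k : ℝ) ^ D) ^ n) ^ 2 * (k * (k - 1) : ℝ) ^ D)) := by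
              apply Finset.sum_le_sum
              intro j _
              by_cases hc : i' ≠ i ∨ j' ≠ j
              · simp only [if_pos hc]
                exact (accidental hk i j i' j' hc).le
              · simp only [if_neg hc, ite_self, Finset.sum_const_zero]
                have : (0 : ℝ) ≤ (k : ℝ) - 1 := by linarith
                positivity
          _ = _ := by simp
      calc _ ≤ ∑ _i : Fin n, n * ((((k : ℝ) - 1) / k) ^ D *
            ((((k : ℝ) ^ D) ^ n) ^ 2 * (k * (k - 1) : ℝ) ^ D)) :=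
            Finset.sum_le_sum fun i _ => h2 i
        _ = _ := by
            rw [card_plant hk]
            simp only [Finset.sum_const, Finset.card_univ, Fintype.card_fin, nsmul_eq_mul]
            ring
    rw [Finset.sum_comm]
    calc _ ≤ ∑ _i' : Fin n, ∑ _j' : Fin n,
          (Fintype.card (Plant n k D) * (((k : ℝ) - 1) / k) ^ D) := by
          apply Finset.sum_le_sum
          intro i' _
          rw [Finset.sum_comm]
          exact Finset.sum_le_sum fun j' _ => h1 i' j'
      _ = _ := by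
          simp only [Finset.sum_const, Finset.card_univ, Fintype.card_fin, nsmul_eq_mul]
          ring
  rw [hcount]
  calc _ ≤ ∑ τ : Plant n k D, ((∑ t,
      (if τ.1.1 ∈ L t (Function.update τ.1.2 τ.1.1 τ.2.2.1.1) then (1 : ℝ) else 0) *
        (if τ.2.1.1 ∈ R t (Function.update τ.2.1.2 τ.2.1.1 τ.2.2.1.2) then (1 : ℝ) else 0)) +
      ∑ i' : Fin n, ∑ j' : Fin n, (if i' ≠ τ.1.1 ∨ j' ≠ τ.2.1.1 then
        (if Off (Function.update τ.1.2 τ.1.1 τ.2.2.1.1 i')
          (Function.update τ.2.1.2 τ.2.1.1 τ.2.2.1.2 j') then (1 : ℝ) else 0) else 0)) :=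
        Finset.sum_le_sum fun τ _ => hpt τ
    _ ≤ _ := by
        rw [Finset.sum_add_distrib]
        linarith

/-! ### The test inputs -/

/-- A strictly increasing list of `n ≤ 2^m` vectors of length `m`. -/
theorem exists_code {n m : ℕ} (h : n ≤ 2 ^ m) :
    ∃ code : Fin n → Fin m → Bool, ∀ i j, i < j →
      ∃ k : Fin m, (∀ l < k, code i l = code j l) ∧ code i k = false ∧ code j k = true := by
  classical
  have hcard : Fintype.card (Lex (Fin m → Bool)) = 2 ^ m := by
    rw [Fintype.card_lex, Fintype.card_fun, Fintype.card_bool, Fintype.card_fin]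
  let e : Fin (2 ^ m) ≃o Lex (Fin m → Bool) := Fintype.orderIsoFinOfCardEq _ hcard
  refine ⟨fun i => ofLex (e (Fin.castLE h i)), fun i j hij => ?_⟩
  have h1 := e.strictMono (show Fin.castLE h i < Fin.castLE h j from hij)
  obtain ⟨k, hk1, hk2⟩ := h1
  refine ⟨k, hk1, ?_⟩
  have hk3 : (ofLex (e (Fin.castLE h i)) k : Bool) < ofLex (e (Fin.castLE h j)) k := hk2
  rw [Bool.lt_iff] at hk3
  exact hk3

/-- The vector of a string: first two blocks of length `l` with the name of the position, then
one block of length `k` for every letter, with a single one. -/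
def emb {l : ℕ} (d : ℕ) (code : Fin n → Fin l → Bool) (p : Pos n) (s : Str k D) :
    Vec d := fun x =>
  if h : x.1 < l then (if p.1 = false then code p.2 ⟨x.1, h⟩ else false)
  else if h : x.1 < 2 * l then (if p.1 = false then false else code p.2 ⟨x.1 - l, by omega⟩)
  else if h : x.1 < 2 * l + D * k then
    decide (s (finProdFinEquiv.symm (⟨x.1 - 2 * l, by omega⟩ : Fin (D * k))).1 =
      (finProdFinEquiv.symm (⟨x.1 - 2 * l, by omega⟩ : Fin (D * k))).2)
  else false

theorem emb_valid {l : ℕ} (hd : 2 * l + D * k ≤ d) (code : Fin n → Fin l → Bool)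
    (hcode : ∀ i j, i < j →
      ∃ k : Fin l, (∀ q < k, code i q = code j q) ∧ code i k = false ∧ code j k = true)
    (z w : Fin n → Str k D) : IsValid (tst (emb d code) z w) := by
  constructor
  · intro p q hpq
    obtain ⟨k', hk1, hk2, hk3⟩ := hcode p q hpq
    refine ⟨⟨k'.1, by omega⟩, ?_, ?_⟩
    · intro s hs
      have hs' : s.1 < k'.1 := hs
      have h1 : s.1 < l := by omega
      show emb d code (false, p) (z p) s = emb d code (false, q) (z q) s
      unfold emb
      rw [dif_pos h1, dif_pos h1]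
      simp only [if_true]
      exact hk1 ⟨s.1, h1⟩ hs'
    · show emb d code (false, p) (z p) _ < emb d code (false, q) (z q) _
      unfold emb
      rw [dif_pos (show (⟨k'.1, by omega⟩ : Fin d).1 < l from k'.2),
        dif_pos (show (⟨k'.1, by omega⟩ : Fin d).1 < l from k'.2)]
      simp only [if_true]
      rw [hk2, hk3]
      decide
  · intro p q hpq
    obtain ⟨k', hk1, hk2, hk3⟩ := hcode p q hpq
    refine ⟨⟨l + k'.1, by omega⟩, ?_, ?_⟩
    · intro s hs
      have hs' : s.1 < l + k'.1 := hs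
      show emb d code (true, p) (w p) s = emb d code (true, q) (w q) s
      unfold emb
      by_cases h1 : s.1 < l
      · rw [dif_pos h1, dif_pos h1]
        simp
      · have h2 : s.1 < 2 * l := by omega
        rw [dif_neg h1, dif_neg h1, dif_pos h2, dif_pos h2]
        simp only [Bool.true_eq_false, if_false]
        exact hk1 ⟨s.1 - l, by omega⟩ (by rw [Fin.lt_def]; simp only; omega)
    · show emb d code (true, p) (w p) _ < emb d code (true, q) (w q) _
      unfold emb
      have h1 : ¬ (l + k'.1 < l) := by omega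
      have h2 : l + k'.1 < 2 * l := by omega
      have h3 : (⟨l + k'.1 - l, by omega⟩ : Fin l) = k' := by ext; simp
      simp only [h1, h2, dif_pos, dif_neg, not_false_iff, Bool.true_eq_false, if_false]
      rw [h3, hk2, hk3]
      decide

theorem sum_toNat_eq_zero_iff {d : ℕ} (u v : Vec d) :
    ∑ k : Fin d, (u k).toNat * (v k).toNat = 0 ↔ ∀ k, ¬ (u k = true ∧ v k = true) := by
  rw [Finset.sum_eq_zero_iff]
  constructor
  · intro h k ⟨h1, h2⟩
    have := h k (Finset.mem_univ k)
    simp [h1, h2] at this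
  · intro h k _
    have := h k
    cases hu : u k <;> cases hv : v k <;> simp_all

theorem emb_orthogonal {l : ℕ} (hd : 2 * l + D * k ≤ d) (code : Fin n → Fin l → Bool)
    (z w : Fin n → Str k D) (i j : Fin n) :
    Orthogonal (tst (emb d code) z w) i j ↔ Off (z i) (w j) := by
  unfold Orthogonal
  rw [sum_toNat_eq_zero_iff]
  have hA : ∀ x, tst (emb d code) z w (false, i) x = emb d code (false, i) (z i) x :=
    fun x => by simp [tst]
  have hB : ∀ x, tst (emb d code) z w (true, j) x = emb d code (true, j) (w j) x :=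
    fun x => by simp [tst]
  simp only [hA, hB]
  constructor
  · intro h c hc
    have hy := (finProdFinEquiv (c, z i c)).2
    apply h ⟨2 * l + (finProdFinEquiv (c, z i c)).1, by omega⟩
    have h1 : ¬ (2 * l + (finProdFinEquiv (c, z i c)).1 < l) := by omega
    have h2 : ¬ (2 * l + (finProdFinEquiv (c, z i c)).1 < 2 * l) := by omega
    have h3 : 2 * l + (finProdFinEquiv (c, z i c)).1 < 2 * l + D * k := by omega
    have h4 : (⟨2 * l + (finProdFinEquiv (c, z i c)).1 - 2 * l, by omega⟩ : Fin (D * k)) =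
        finProdFinEquiv (c, z i c) := by
      apply Fin.ext
      show 2 * l + (finProdFinEquiv (c, z i c)).1 - 2 * l = _
      omega
    unfold emb
    constructor
    · rw [dif_neg h1, dif_neg h2, dif_pos h3, h4, Equiv.symm_apply_apply]
      simp
    · rw [dif_neg h1, dif_neg h2, dif_pos h3, h4, Equiv.symm_apply_apply]
      simpa using hc.symm
  · rintro h x ⟨h1, h2⟩
    unfold emb at h1 h2
    by_cases c1 : x.1 < l
    · rw [dif_pos c1] at h2
      simp at h2
    · rw [dif_neg c1] at h1 h2
      by_cases c2 : x.1 < 2 * l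
      · rw [dif_pos c2] at h1
        simp at h1
      · rw [dif_neg c2] at h1 h2
        by_cases c3 : x.1 < 2 * l + D * k
        · rw [dif_pos c3] at h1 h2
          simp only [decide_eq_true_eq] at h1 h2
          exact h _ (h1.trans h2.symm)
        · rw [dif_neg c3] at h1
          simp at h1

/-! ### The result -/

/-- Data-independent or data-dependent bucketing of the two sides, each on its own, costs
`n^(2-o(1))`. -/
theorem result : ∀ ε : ℝ, 0 < ε → ∃ K : ℕ, ∀ n d : ℕ, 2 ≤ n → K * Nat.clog 2 n ≤ d →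
    ∀ μ : PMF (Scheme n d),
      (∀ x : Input n d, IsValid x → (∃ i j, Orthogonal x i j) →
        (2 / 3 : ENNReal) ≤ μ.toOuterMeasure {S | S.Finds x}) →
      ∃ x : Input n d, IsValid x ∧
        ENNReal.ofReal ((n : ℝ) ^ (2 - ε) / 3) ≤ ∑' S, μ S * (S.cost x : ENNReal) := by
  classical
  intro ε hε
  have hη0 : 0 < min (ε / 2) 1 := by positivity
  have hη1 : min (ε / 2) 1 ≤ 1 := min_le_right _ _
  have hη2 : min (ε / 2) 1 ≤ ε / 2 := min_le_left _ _
  generalize min (ε / 2) 1 = η at hη0 hη1 hη2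
  obtain ⟨k, hk, hgood⟩ := exists_good hη0 hη1
  refine ⟨4 * k ^ 2 + 2, ?_⟩
  intro n d hn hd μ hμ
  by_contra hcon
  push Not at hcon
  have hn' : (2 : ℝ) ≤ n := by exact_mod_cast hn
  have hn0 : (0 : ℝ) < n := by linarith
  have hk' : (2 : ℝ) ≤ k := by exact_mod_cast hk
  have hk0 : (0 : ℝ) < k := by linarith
  have hkm : (0 : ℝ) < (k : ℝ) - 1 := by linarith
  obtain ⟨code, hcode⟩ := exists_code (n := n) (m := Nat.clog 2 n)
    (Nat.le_pow_clog (by norm_num) n)
  have hl : 1 ≤ Nat.clog 2 n := Nat.clog_pos (by norm_num) hn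
  have hnl : (n : ℝ) ≤ 2 ^ Nat.clog 2 n := by exact_mod_cast Nat.le_pow_clog (by norm_num) n
  generalize Nat.clog 2 n = l at code hcode hl hnl hd
  obtain ⟨D, hD⟩ : ∃ D, D = k * (2 * l + 2) := ⟨_, rfl⟩
  have hd' : 2 * l + D * k ≤ d := by
    refine le_trans ?_ hd
    rw [hD]
    nlinarith [Nat.zero_le (k ^ 2), mul_le_mul_right hl (k ^ 2)]
  let E : Pos n → Str k D → Vec d := emb d code
  have hE : ∀ z w i j, Orthogonal (tst E z w) i j ↔ Off (z i) (w j) :=
    fun z w i j => emb_orthogonal hd' code z w i j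
  have hval : ∀ z w, IsValid (tst E z w) := fun z w => emb_valid hd' code hcode z w
  have hq1 : 1 ≤ 1 + η := by linarith
  have hq2 : 1 + η ≤ 2 := by linarith
  set q : ℝ := 1 + η with hq
  have hq0 : 0 < q := by linarith
  set N : ℝ := ((n : ℝ) ^ 2) ^ (1 / q) with hN
  have hN0 : 0 < N := by positivity
  have hNε : (n : ℝ) ^ (2 - ε) ≤ N := by
    have h1 : N = (n : ℝ) ^ (2 / q) := by
      rw [hN, ← Real.rpow_natCast, ← Real.rpow_mul hn0.le]
      congr 1
      push_cast
      ring
    rw [h1]
    apply Real.rpow_le_rpow_of_exponent_le (by linarith)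
    rw [le_div_iff₀ hq0, hq]
    nlinarith
  have hδ : (n : ℝ) ^ 2 * (((k : ℝ) - 1) / k) ^ D ≤ 1 / 4 := by
    have h1 : (((k : ℝ) - 1) / k) ^ k ≤ 1 / 2 := by
      have h2 : ((k : ℝ) - 1) / k ≤ Real.exp (-(1 / k)) := by
        have := Real.add_one_le_exp (-(1 / (k : ℝ)))
        calc ((k : ℝ) - 1) / k = -(1 / (k : ℝ)) + 1 := by field_simp; ring
          _ ≤ _ := this
      calc (((k : ℝ) - 1) / k) ^ k ≤ Real.exp (-(1 / k)) ^ k :=
            pow_le_pow_left₀ (by positivity) h2 k
        _ = Real.exp (-1) := by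
            rw [← Real.exp_nat_mul]
            congr 1
            field_simp
        _ ≤ 1 / 2 := by
            rw [Real.exp_neg, one_div]
            apply inv_anti₀ (by norm_num)
            have := Real.exp_one_gt_d9
            linarith
    have h3 : (((k : ℝ) - 1) / k) ^ D ≤ (1 / 2) ^ (2 * l + 2) := by
      rw [hD, pow_mul]
      exact pow_le_pow_left₀ (by positivity) h1 _
    have h4 : (n : ℝ) ^ 2 ≤ 2 ^ (2 * l) := by
      calc (n : ℝ) ^ 2 ≤ (2 ^ l) ^ 2 := pow_le_pow_left₀ (by positivity) hnl 2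
        _ = 2 ^ (2 * l) := by rw [← pow_mul, mul_comm]
    calc (n : ℝ) ^ 2 * (((k : ℝ) - 1) / k) ^ D ≤ 2 ^ (2 * l) * (1 / 2) ^ (2 * l + 2) := by
          apply mul_le_mul h4 h3 (by positivity) (by positivity)
      _ = (2 * (1 / 2)) ^ (2 * l) * (1 / 4) := by
          rw [pow_add, mul_pow]
          ring
      _ = 1 / 4 := by norm_num
  -- numbers of tests
  have hne : Nonempty (Fin k) := ⟨⟨0, by omega⟩⟩
  set P : ℝ := ((Fintype.card (Plant n k D) : ℕ) : ℝ) with hP
  have hP0 : 0 < P := by
    rw [hP, card_plant hk]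
    positivity
  set Z : ℝ := (((k : ℝ) ^ D) ^ n) ^ 2 with hZ
  have hZ0 : 0 < Z := by positivity
  have hcardZ : ((Fintype.card (Fin n → Str k D) * Fintype.card (Fin n → Str k D) : ℕ) : ℝ)
      = Z := by
    simp only [Fintype.card_fun, Fintype.card_fin]
    push_cast
    rw [hZ]
    ring
  -- the success on planted tests
  have hsucc : ENNReal.ofReal (P * (2 / 3)) ≤ ∑' S, μ S *
      (((Finset.univ.filter fun τ : Plant n k D => S.Finds (τ.input E)).card : ℕ) : ENNReal) := by
    have h1 : ∀ S : Scheme n d, μ S *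
        (((Finset.univ.filter fun τ : Plant n k D => S.Finds (τ.input E)).card : ℕ) : ENNReal) =
        ∑ τ : Plant n k D, {S | S.Finds (τ.input E)}.indicator μ S := by
      intro S
      rw [Finset.card_filter]
      push_cast
      rw [Finset.mul_sum]
      apply Finset.sum_congr rfl
      intro τ _
      by_cases h : S.Finds (τ.input E) <;> simp [Set.indicator, h]
    calc ENNReal.ofReal (P * (2 / 3)) = ∑ _τ : Plant n k D, (2 / 3 : ENNReal) := by
          rw [Finset.sum_const, Finset.card_univ, nsmul_eq_mul, hP,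
            ENNReal.ofReal_mul (by positivity), ENNReal.ofReal_natCast,
            ENNReal.ofReal_div_of_pos (by norm_num)]
          norm_num
      _ ≤ ∑ τ : Plant n k D, μ.toOuterMeasure {S | S.Finds (τ.input E)} := by
          apply Finset.sum_le_sum
          intro τ _
          apply hμ _ (hval _ _)
          refine ⟨τ.1.1, τ.2.1.1, ?_⟩
          rw [hE]
          simpa using τ.2.2.2
      _ = ∑' S, μ S *
          (((Finset.univ.filter fun τ : Plant n k D => S.Finds (τ.input E)).card : ℕ) :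
            ENNReal) := by
          simp only [h1]
          rw [Summable.tsum_finsetSum (fun _ _ => ENNReal.summable)]
          simp only [PMF.toOuterMeasure_apply]
  -- the cost on random tests
  have hcost : ∑' S, μ S * (((∑ z, ∑ w, S.cost (tst E z w) : ℕ)) : ENNReal) ≤
      ENNReal.ofReal (Z * (N / 3)) := by
    have h1 : ∀ S : Scheme n d, μ S * (((∑ z, ∑ w, S.cost (tst E z w) : ℕ)) : ENNReal) =
        ∑ zw : (Fin n → Str k D) × (Fin n → Str k D),
          μ S * (S.cost (tst E zw.1 zw.2) : ENNReal) := by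
      intro S
      rw [Fintype.sum_prod_type]
      push_cast
      rw [Finset.mul_sum]
      apply Finset.sum_congr rfl
      intro z _
      rw [Finset.mul_sum]
    simp only [h1]
    rw [Summable.tsum_finsetSum (fun _ _ => ENNReal.summable)]
    calc ∑ zw : (Fin n → Str k D) × (Fin n → Str k D),
          ∑' S, μ S * (S.cost (tst E zw.1 zw.2) : ENNReal)
        ≤ ∑ _zw : (Fin n → Str k D) × (Fin n → Str k D), ENNReal.ofReal (N / 3) := by
          apply Finset.sum_le_sum
          intro zw _
          refine (hcon _ (hval zw.1 zw.2)).le.trans (ENNReal.ofReal_le_ofReal ?_)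
          linarith
      _ = ENNReal.ofReal (Z * (N / 3)) := by
          rw [Finset.sum_const, Finset.card_univ, Fintype.card_prod, nsmul_eq_mul,
            ENNReal.ofReal_mul hZ0.le, ← hcardZ, ENNReal.ofReal_natCast]
  -- the inequality for single schemes
  have hper : ∀ S : Scheme n d,
      (((Finset.univ.filter fun τ : Plant n k D => S.Finds (τ.input E)).card : ℕ) : ENNReal) ≤
        ENNReal.ofReal (P * (1 / 4)) + ENNReal.ofReal (P / (N * Z)) *
          (((∑ z, ∑ w, S.cost (tst E z w) : ℕ)) : ENNReal) := by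
    intro S
    have h1 := per_scheme (by omega) hk hq1 hq2 hgood E hE S
    rw [← hP, ← hN, ← hZ] at h1
    have h2 : ((Finset.univ.filter fun τ : Plant n k D => S.Finds (τ.input E)).card : ℝ) ≤
        P * (1 / 4) + P / (N * Z) * ((∑ z, ∑ w, S.cost (tst E z w) : ℕ) : ℝ) := by
      refine h1.trans (add_le_add (mul_le_mul_of_nonneg_left hδ hP0.le) (le_of_eq ?_))
      push_cast
      rw [div_mul_div_comm]
      ring
    calc (((Finset.univ.filter fun τ : Plant n k D => S.Finds (τ.input E)).card : ℕ) : ENNReal)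
        = ENNReal.ofReal
          ((Finset.univ.filter fun τ : Plant n k D => S.Finds (τ.input E)).card : ℝ) :=
          (ENNReal.ofReal_natCast _).symm
      _ ≤ ENNReal.ofReal (P * (1 / 4) +
          P / (N * Z) * ((∑ z, ∑ w, S.cost (tst E z w) : ℕ) : ℝ)) :=
          ENNReal.ofReal_le_ofReal h2
      _ = _ := by
          rw [ENNReal.ofReal_add (by positivity) (by positivity),
            ENNReal.ofReal_mul (p := P / (N * Z)) (by positivity), ENNReal.ofReal_natCast]
  -- conclusion
  have hfin : ENNReal.ofReal (P * (2 / 3)) ≤ ENNReal.ofReal (P * (7 / 12)) := by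
    calc ENNReal.ofReal (P * (2 / 3)) ≤ ∑' S, μ S *
          (((Finset.univ.filter fun τ : Plant n k D => S.Finds (τ.input E)).card : ℕ) :
            ENNReal) := hsucc
      _ ≤ ∑' S, μ S * (ENNReal.ofReal (P * (1 / 4)) + ENNReal.ofReal (P / (N * Z)) *
          (((∑ z, ∑ w, S.cost (tst E z w) : ℕ)) : ENNReal)) :=
          ENNReal.tsum_le_tsum fun S => mul_le_mul_right (hper S) (μ S)
      _ = ENNReal.ofReal (P * (1 / 4)) + ENNReal.ofReal (P / (N * Z)) *
          ∑' S, μ S * (((∑ z, ∑ w, S.cost (tst E z w) : ℕ)) : ENNReal) := by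
          have h1 : ∀ S : Scheme n d, μ S * (ENNReal.ofReal (P * (1 / 4)) +
              ENNReal.ofReal (P / (N * Z)) *
                (((∑ z, ∑ w, S.cost (tst E z w) : ℕ)) : ENNReal)) =
              μ S * ENNReal.ofReal (P * (1 / 4)) + ENNReal.ofReal (P / (N * Z)) *
                (μ S * (((∑ z, ∑ w, S.cost (tst E z w) : ℕ)) : ENNReal)) := by
            intro S
            ring
          simp only [h1]
          rw [ENNReal.tsum_add, ENNReal.tsum_mul_right, PMF.tsum_coe, one_mul,
            ENNReal.tsum_mul_left]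
      _ ≤ ENNReal.ofReal (P * (1 / 4)) + ENNReal.ofReal (P / (N * Z)) *
          ENNReal.ofReal (Z * (N / 3)) := by
          gcongr
      _ = ENNReal.ofReal (P * (7 / 12)) := by
          rw [← ENNReal.ofReal_mul (by positivity), ← ENNReal.ofReal_add (by positivity)
            (by positivity)]
          congr 1
          field_simp
          ring
  rw [ENNReal.ofReal_le_ofReal_iff (by positivity)] at hfin
  linarith

end Pool.Agent.Results.MP_0f984e_lc.IndependentBuckets
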